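import Mathlib
import Pool.Agent.Helper86.OB.Emb
import Pool.Agent.Helper98.OS.CL

/-!
# RE, block R3: the choice of the root
-/

set_option autoImplicit false

namespace Pool.Agent.Helper26.RE

open Polynomial Cardinal Set
open scoped IntermediateField

noncomputable section

/-- embeddings with given residues of numbers which are algebraically independent over a countable field -/
theorem embK98 (p : ℕ) [Fact p.Prime] (K : Type) [Field K] [Countable K] [Algebra K ℂ] [Algebra K (PadicAlgCl p)]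
    {r : ℕ} (t : Fin r → ℂ) (ht : AlgebraicIndependent K t) (θ : Fin r → PadicAlgCl p) :
    ∃ τ : ℂ →+* PadicAlgCl p, ∀ j, ‖τ (t j) - θ j‖ < 1 := by
  obtain ⟨u, hu, hu1⟩ := Pool.Agent.Helper26.OB.exists_near86 (K := K) θ
  let f : IntermediateField.adjoin K (range t) →ₐ[K] PadicAlgCl p :=
    (IntermediateField.val _).comp (hu.aevalEquivField.toAlgHom.comp
      ht.aevalEquivField.symm.toAlgHom)
  have hcount : Countable (IntermediateField.adjoin K (range t)) := by
    rw [← mk_le_aleph0_iff]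
    refine (IntermediateField.cardinalMk_adjoin_le K (range t)).trans ?_
    refine max_le (max_le mk_le_aleph0 mk_le_aleph0) le_rfl
  obtain ⟨τ, hτ⟩ := Pool.Agent.Helper26.FU.exists_lift_complex (p := p)
    (K := IntermediateField.adjoin K (range t)) f.toRingHom
  refine ⟨τ, fun j => ?_⟩
  have hti : t j ∈ IntermediateField.adjoin K (range t) :=
    IntermediateField.subset_adjoin _ _ ⟨j, rfl⟩
  have h1 := hτ ⟨t j, hti⟩
  have h2 : algebraMap (IntermediateField.adjoin K (range t)) ℂ ⟨t j, hti⟩ = t j := rfl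
  have h3 : ht.aevalEquivField (algebraMap (MvPolynomial (Fin r) K)
      (FractionRing (MvPolynomial (Fin r) K)) (MvPolynomial.X j)) = ⟨t j, hti⟩ := by
    apply Subtype.ext
    rw [AlgebraicIndependent.aevalEquivField_algebraMap_apply_coe, MvPolynomial.aeval_X]
  have h4 : ht.aevalEquivField.symm ⟨t j, hti⟩ = algebraMap (MvPolynomial (Fin r) K)
      (FractionRing (MvPolynomial (Fin r) K)) (MvPolynomial.X j) := by
    rw [← h3, AlgEquiv.symm_apply_apply]
  have h5 : f ⟨t j, hti⟩ = u j := by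
    change ((hu.aevalEquivField (ht.aevalEquivField.symm ⟨t j, hti⟩) :
      IntermediateField.adjoin K (range u)) : PadicAlgCl p) = u j
    rw [h4, AlgebraicIndependent.aevalEquivField_algebraMap_apply_coe, MvPolynomial.aeval_X]
  rw [h2] at h1
  rw [h1]
  have h6 : f.toRingHom ⟨t j, hti⟩ = u j := h5
  rw [h6]
  exact hu1 j

/-- **R3** (algebra, `p`-adic): the choice of the root -/
theorem padic_lift {p : ℕ} [Fact p.Prime] {r : ℕ} (t : Fin r → ℂ) (ht : AlgebraicIndependent ℚ t) (η : ℂ)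
    (hη : IsAlgebraic (IntermediateField.adjoin ℚ (Set.range t)) η) (θ : Fin r → PadicAlgCl p)
    (ρ : PadicAlgCl p) (hρ : ‖ρ‖ ≤ 1)
    (hmin : ∀ τ₁ : ℂ →+* PadicAlgCl p, (∀ j, ‖τ₁ (t j) - θ j‖ < 1) →
      (∀ n, ‖τ₁ ((minpoly (IntermediateField.adjoin ℚ (Set.range t)) η).coeff n)‖ ≤ 1) ∧
      ‖((minpoly (IntermediateField.adjoin ℚ (Set.range t)) η).map
        (τ₁.comp (algebraMap (IntermediateField.adjoin ℚ (Set.range t)) ℂ))).eval ρ‖ < 1) :
    ∃ τ : ℂ →+* PadicAlgCl p, (∀ j, ‖τ (t j) - θ j‖ < 1) ∧ ‖τ η - ρ‖ < 1 := by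
  obtain ⟨τ₁, hτ₁⟩ := embK98 p ℚ t ht θ
  obtain ⟨-, hm⟩ := hmin τ₁ hτ₁
  set E := IntermediateField.adjoin ℚ (Set.range t) with hE
  have hint : IsIntegral E η := isAlgebraic_iff_isIntegral.1 hη
  set W : ℂ[X] := (minpoly E η).map (algebraMap E ℂ) with hW
  have hmonic : W.Monic := (minpoly.monic hint).map _
  have hunit : ∃ m, ‖τ₁ (W.coeff m)‖ = 1 := ⟨W.natDegree, by
    rw [hmonic.coeff_natDegree, map_one, norm_one]⟩
  obtain ⟨s, hs, hs1⟩ := Pool.Agent.Helper98.OS.exists_root98 τ₁ W hunit ρ hρ (by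
    rw [hW, Polynomial.map_map]
    exact hm)
  have hmem : s ∈ (minpoly E η).aroots ℂ := by
    rw [mem_aroots]
    refine ⟨minpoly.ne_zero hint, ?_⟩
    rw [hW, eval_map_algebraMap] at hs
    exact hs
  let g : E⟮η⟯ →ₐ[E] ℂ := (IntermediateField.algHomAdjoinIntegralEquiv E hint).symm ⟨s, hmem⟩
  have hg : g (IntermediateField.AdjoinSimple.gen E η) = s :=
    IntermediateField.algHomAdjoinIntegralEquiv_symm_apply_gen E hint ⟨s, hmem⟩
  have hcE : Countable E := by
    rw [← mk_le_aleph0_iff]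
    refine (IntermediateField.cardinalMk_adjoin_le ℚ (range t)).trans ?_
    refine max_le (max_le mk_le_aleph0 mk_le_aleph0) le_rfl
  have hcount : Countable E⟮η⟯ := by
    rw [← mk_le_aleph0_iff]
    refine (IntermediateField.cardinalMk_adjoin_le E {η}).trans ?_
    refine max_le (max_le mk_le_aleph0 mk_le_aleph0) le_rfl
  obtain ⟨τ, hτ⟩ := Pool.Agent.Helper26.FU.exists_lift_complex (p := p) (K := E⟮η⟯)
    (τ₁.comp (g : E⟮η⟯ →+* ℂ))
  refine ⟨τ, fun j => ?_, ?_⟩
  · have hti : t j ∈ E := IntermediateField.subset_adjoin _ _ ⟨j, rfl⟩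
    have h1 := hτ (algebraMap E E⟮η⟯ ⟨t j, hti⟩)
    have h2 : g (algebraMap E E⟮η⟯ ⟨t j, hti⟩) = t j := g.commutes ⟨t j, hti⟩
    have h3 : τ (t j) = τ₁ (t j) := by
      refine h1.trans ?_
      show τ₁ (g (algebraMap E E⟮η⟯ ⟨t j, hti⟩)) = τ₁ (t j)
      rw [h2]
    rw [h3]
    exact hτ₁ j
  · have h1 := hτ (IntermediateField.AdjoinSimple.gen E η)
    have h3 : τ η = τ₁ s := by
      refine h1.trans ?_
      show τ₁ (g (IntermediateField.AdjoinSimple.gen E η)) = τ₁ s
      rw [hg]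
    rw [h3]
    exact hs1

end

end Pool.Agent.Helper26.RE
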